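import Mathlib
import Pool.Agent.H362Z.WNCDefs
import Pool.Agent.H362Z.JBWDefs
import Pool.Agent.H362Z.JBWLinf

set_option autoImplicit false

namespace Pool.Agent.Results.MP_4226b8_an.NotEquivalent

open Pool.Agent.H362Z.WNC Pool.Agent.H362Z.JBW

/-- There is a JBW*-triple (the bounded complex sequences) on which the De Blasi measure is not
bounded by any constant multiple of `wk` or of `wck`. -/
theorem result :
    ∃ (M : Type) (_ : NormedAddCommGroup M) (_ : NormedSpace ℂ M) (L : M → M → M →L[ℂ] M),
      IsJBWStarTriple M L ∧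
      ∀ c : NNReal, ∃ A : Set M, Bornology.IsBounded A ∧ A.Nonempty ∧
        c * wk M A < omega M A ∧ c * wck M A < omega M A :=
  ⟨Linf, inferInstance, inferInstance, _, ⟨isJBStarTriple_Linf, isDualSpace_Linf⟩,
    not_equiv data_Linf⟩

end Pool.Agent.Results.MP_4226b8_an.NotEquivalent
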